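import Pool.Agent.Helper83.HL.St

/-! Project HL (helper83), module C: bad primes are larger than `m (m + 1)`. -/

set_option autoImplicit false

namespace Pool.Agent.Helper72.HL

open Pool.Agent.Helper83.HL

/-- the class of `n` lies in the subgroup -/
def Inn (q m n : ℕ) : Prop := ∃ u ∈ Hs q m, (u : ZMod q) = (n : ZMod q)

theorem mC : StC := by
  intro q m hb
  obtain ⟨hq, hmq, hne⟩ := hb
  have := Fact.mk hq
  have hcast : ∀ n : ℕ, 1 ≤ n → n < q → (n : ZMod q) ≠ 0 := by
    intro n h1 h2 h3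
    rw [ZMod.natCast_eq_zero_iff] at h3
    exact absurd (Nat.le_of_dvd h1 h3) (not_le.2 h2)
  have hex : ∃ a : ℕ, 1 ≤ a ∧ a < q ∧ ¬ Inn q m a := by
    have h1 : ∃ u : (ZMod q)ˣ, u ∉ Hs q m := by
      by_contra h
      push Not at h
      exact hne ((Subgroup.eq_top_iff' _).2 h)
    obtain ⟨u, hu⟩ := h1
    refine ⟨(u : ZMod q).val, ?_, ZMod.val_lt _, ?_⟩
    · rcases Nat.eq_zero_or_pos (u : ZMod q).val with h | h
      · rw [ZMod.val_eq_zero] at h
        exact absurd h u.ne_zero
      · exact h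
    · rintro ⟨v, hv, hv2⟩
      rw [ZMod.natCast_zmod_val] at hv2
      exact hu (Units.ext hv2 ▸ hv)
  classical
  obtain ⟨ha1, haq, hain⟩ := Nat.find_spec hex
  have hmin : ∀ n : ℕ, 1 ≤ n → n < q → n < Nat.find hex → Inn q m n := by
    intro n h1 h2 h3
    by_contra h4
    exact Nat.find_min hex h3 ⟨h1, h2, h4⟩
  generalize Nat.find hex = a at ha1 haq hain hmin
  have hone : Inn q m 1 := ⟨1, (Hs q m).one_mem, by simp⟩
  have hgen : ∀ k : ℕ, 2 ≤ k → k ≤ m → Inn q m k := by
    intro k h1 h2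
    have h3 := hcast k (by omega) (by omega)
    refine ⟨Units.mk0 (k : ZMod q) h3, Subgroup.subset_closure ⟨k, h1, h2, rfl⟩, rfl⟩
  have ha2 : 2 ≤ a := by
    by_contra h
    have h1 : a = 1 := by omega
    rw [h1] at hain
    exact hain hone
  have ham : m + 1 ≤ a := by
    by_contra h
    exact hain (hgen a ha2 (by omega))
  have hdm := Nat.div_add_mod q a
  have hs : q % a < a := Nat.mod_lt _ (by omega)
  have hs0 : q % a ≠ 0 := by
    intro h
    have h1 : a ∣ q := Nat.dvd_of_mod_eq_zero h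
    rcases (Nat.dvd_prime hq).1 h1 with h2 | h2 <;> omega
  have hb2 : 2 * (q / a) ≤ q := by
    calc 2 * (q / a) ≤ a * (q / a) := Nat.mul_le_mul_right _ ha2
      _ ≤ q := by omega
  have hbq : q / a + 1 < q := by omega
  have hab : a * (q / a + 1) = q + (a - q % a) := by
    rw [mul_add, mul_one]
    omega
  have hr : Inn q m (a - q % a) := hmin _ (by omega) (by omega) (by omega)
  have hnb : ¬ Inn q m (q / a + 1) := by
    rintro ⟨v, hv, hv2⟩
    obtain ⟨w, hw, hw2⟩ := hr
    refine hain ⟨w * v⁻¹, (Hs q m).mul_mem hw ((Hs q m).inv_mem hv), ?_⟩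
    have h1 : (a : ZMod q) * v = w := by
      rw [hv2, hw2]
      have h2 : ((a * (q / a + 1) : ℕ) : ZMod q) = ((q + (a - q % a) : ℕ) : ZMod q) := by
        rw [hab]
      rw [Nat.cast_mul, Nat.cast_add q, ZMod.natCast_self, zero_add] at h2
      exact h2
    rw [Units.val_mul, ← h1, mul_assoc, Units.mul_inv, mul_one]
  have hba : a ≤ q / a + 1 := by
    by_contra h
    exact hnb (hmin _ (by omega) hbq (by omega))
  calc m * (m + 1) ≤ (q / a) * a := Nat.mul_le_mul (by omega) ham
    _ = a * (q / a) := Nat.mul_comm _ _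
    _ < q := by omega

end Pool.Agent.Helper72.HL
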